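import Pool.Agent.helper96.SV.SpecA

/-!
# Project sva (MP_b5a345_ag), module GZT: compatibility of the group action
-/

set_option autoImplicit false

namespace Pool.Agent.SVA

open Polynomial Module

variable {K : Type} [Fintype K] [DecidableEq K] {m : K → ℕ}

theorem GZT_prod_sum (F : (i : K) → Fin (m i + 1) → ℂ) :
    ∑ γ : Bx m, ∏ i, F i (γ i) = ∏ i, ∑ j, F i j := by
  rw [Finset.prod_univ_sum, Fintype.piFinset_univ]

theorem GZT_mul (g h : (i : K) → Matrix (Fin (m i + 1)) (Fin (m i + 1)) ℂ) (β δ : Bx m) :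
    ∑ γ : Bx m, (∏ i, g i (β i) (γ i)) * (∏ i, h i (γ i) (δ i)) =
      ∏ i, (g i * h i) (β i) (δ i) := by
  simp_rw [← Finset.prod_mul_distrib]
  rw [GZT_prod_sum (fun i j => g i (β i) j * h i j (δ i))]
  rfl

theorem GZT_one (β γ : Bx m) :
    ∏ i, (1 : Matrix (Fin (m i + 1)) (Fin (m i + 1)) ℂ) (β i) (γ i) = if β = γ then 1 else 0 := by
  by_cases h : β = γ
  · rw [if_pos h]
    refine Finset.prod_eq_one fun i _ => ?_
    rw [h, Matrix.one_apply_eq]
  · rw [if_neg h]
    have h2 : ∃ i, β i ≠ γ i := by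
      by_contra h3
      push Not at h3
      exact h (funext h3)
    obtain ⟨i, hi⟩ := h2
    exact Finset.prod_eq_zero (Finset.mem_univ i) (Matrix.one_apply_ne hi)

theorem GZT_ten (g : (i : K) → Matrix (Fin (m i + 1)) (Fin (m i + 1)) ℂ) (y : Py m) :
    gz g (ten y) = ten (fun i => (g i).mulVec (y i)) := by
  funext β
  unfold gz ten
  simp_rw [← Finset.prod_mul_distrib]
  rw [GZT_prod_sum (fun i j => g i (β i) j * y i j)]
  rfl

theorem GZT_add (g : (i : K) → Matrix (Fin (m i + 1)) (Fin (m i + 1)) ℂ) (z w : Bx m → ℂ) :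
    gz g (z + w) = gz g z + gz g w := by
  funext β
  simp only [gz, Pi.add_apply, mul_add, Finset.sum_add_distrib]

theorem GZT_smul (g : (i : K) → Matrix (Fin (m i + 1)) (Fin (m i + 1)) ℂ) (s : ℂ)
    (z : Bx m → ℂ) : gz g (s • z) = s • gz g z := by
  funext β
  simp only [gz, Pi.smul_apply, smul_eq_mul, Finset.mul_sum]
  exact Finset.sum_congr rfl fun γ _ => by ring

theorem GZT : GZT_stmt := by
  intro K _ _ m g h
  refine ⟨GZT_ten g, ?_, ?_, ?_, ?_, ?_, ?_⟩
  · intro a z
    unfold pr gt gz
    simp_rw [Finset.sum_mul, Finset.mul_sum]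
    rw [Finset.sum_comm]
    exact Finset.sum_congr rfl fun β _ => Finset.sum_congr rfl fun γ _ => by ring
  · intro z
    funext β
    unfold gz
    simp_rw [Finset.mul_sum]
    rw [Finset.sum_comm]
    refine Finset.sum_congr rfl fun δ _ => ?_
    rw [← GZT_mul g h β δ, Finset.sum_mul]
    exact Finset.sum_congr rfl fun γ _ => by ring
  · intro z
    funext β
    unfold gz
    rw [Finset.sum_eq_single β]
    · rw [GZT_one, if_pos rfl, one_mul]
    · intro γ _ hγ
      rw [GZT_one, if_neg (Ne.symm hγ), zero_mul]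
    · intro h
      exact absurd (Finset.mem_univ _) h
  · intro a
    funext δ
    unfold gt
    simp_rw [Finset.mul_sum]
    rw [Finset.sum_comm]
    refine Finset.sum_congr rfl fun β _ => ?_
    rw [← GZT_mul g h β δ, Finset.sum_mul]
    exact Finset.sum_congr rfl fun γ _ => by ring
  · intro a
    funext γ
    unfold gt
    rw [Finset.sum_eq_single γ]
    · rw [GZT_one, if_pos rfl, one_mul]
    · intro β _ hβ
      rw [GZT_one, if_neg hβ, zero_mul]
    · intro h
      exact absurd (Finset.mem_univ _) h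
  · intro y z hz
    refine Submodule.span_induction (p := fun z _ => gz g z ∈ Tan (fun i => (g i).mulVec (y i)))
      ?_ ?_ ?_ ?_ hz
    · rintro z ⟨i, w, rfl⟩
      rw [GZT_ten]
      refine Submodule.subset_span ⟨i, (g i).mulVec w, ?_⟩
      congr 1
      funext i'
      by_cases hi : i' = i
      · subst hi
        simp
      · simp [Function.update_of_ne hi]
    · have h0 : gz g (0 : Bx m → ℂ) = 0 := by
        funext β
        simp [gz]
      rw [h0]
      exact Submodule.zero_mem _
    · intro z w _ _ h1 h2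
      rw [GZT_add]
      exact Submodule.add_mem _ h1 h2
    · intro s z _ h1
      rw [GZT_smul]
      exact Submodule.smul_mem _ _ h1

end Pool.Agent.SVA
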