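import Pool.Agent.helper96.SV.SpecA

/-!
# Project sva (MP_b5a345_ag), module KZ: the drop for a standard block
-/

set_option autoImplicit false

namespace Pool.Agent.SVA

open Polynomial Module

/-- multiplication by a family of polynomials on `WW m e` -/
noncomputable def KZ_mul {K : Type} [Fintype K] [DecidableEq K] {m : K → ℕ} (e : ℕ)
    (φ : Bx m → ℂ[X]) : WW m e →ₗ[ℂ] (Bx m → ℂ[X]) where
  toFun G := fun β => φ β * (G : Bx m → ℂ[X]) β
  map_add' := by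
    intro F G
    funext β
    simp only [Submodule.coe_add, Pi.add_apply, mul_add]
  map_smul' := by
    intro s F
    funext β
    simp only [Submodule.coe_smul, Pi.smul_apply, mul_smul_comm, RingHom.id_apply]

theorem KZ_mul_apply {K : Type} [Fintype K] [DecidableEq K] {m : K → ℕ} (e : ℕ)
    (φ : Bx m → ℂ[X]) (G : WW m e) (β : Bx m) :
    KZ_mul e φ G β = φ β * (G : Bx m → ℂ[X]) β := rfl

/-- the subspace `NF` as a preimage -/
theorem KZ_finrank_NF {K : Type} [Fintype K] [DecidableEq K] {m : K → ℕ} (e : ℕ)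
    (φ : Bx m → ℂ[X]) (l : List (Py m × ℂ)) :
    finrank ℂ ((⨅ Q ∈ l, Sg Q : Submodule ℂ (Bx m → ℂ[X])).comap (KZ_mul e φ)) =
      finrank ℂ (NF e φ l) := by
  have h1 : (⨅ Q ∈ l, Sg Q : Submodule ℂ (Bx m → ℂ[X])).comap (KZ_mul e φ) =
      (NF e φ l).comap (WW m e).subtype := by
    ext G
    simp only [Submodule.mem_comap, Submodule.mem_iInf, Submodule.subtype_apply, mem_NF]
    constructor
    · intro h
      exact ⟨G.2, fun Q hQ => h Q hQ⟩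
    · intro h Q hQ
      exact h.2 Q hQ
  rw [h1]
  exact (Submodule.comapSubtypeEquivOfLe (NF_le e φ l)).finrank_eq

theorem KZ_finrank_NN {K : Type} [Fintype K] [DecidableEq K] [Nonempty K] (hSCL : SCL_stmt)
    {m : K → ℕ} (e : ℕ) (u : ℂ[X]) (φ : Bx m → ℂ[X]) (hφ : ∀ β, φ β = u)
    (l : List (Py m × ℂ)) (hu : ∀ Q ∈ l, u.eval Q.2 ≠ 0) :
    NF e φ l = NN e l := by
  have hφ2 : φ = fun _ => u := funext hφ
  subst hφ2
  ext G
  rw [mem_NF, mem_NN, mem_WW]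
  constructor
  · rintro ⟨h1, h2⟩
    exact ⟨h1, fun Q hQ => (hSCL u Q G (hu Q hQ)).1 (h2 Q hQ)⟩
  · rintro ⟨h1, h2⟩
    exact ⟨h1, fun Q hQ => (hSCL u Q G (hu Q hQ)).2 (h2 Q hQ)⟩

theorem KZ (hLQB : LQB_stmt) (hPHE : PHE_stmt) (hPFR : PFR_stmt) (hSCL : SCL_stmt)
    (hSIG : SIG_stmt) (hFVR : FVR_stmt) : KZ_stmt := by
  intro K _ _ _ m e l P hne F hF z c z₀ c₀ hz hz₀ hrel hcase
  -- the direction `σ`
  have hσ : ∃ σ : Bx m → ℂ, Function.Injective σ ∧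
      ((c₀ ≠ 0 ∧ pr (fun β => Mx σ β * ev P.2 F β) (ten P.1) ≠ 0) ∨
        (c₀ = 0 ∧ pr (fun β => Mx σ β * ev P.2 F β) z₀ ≠ 0)) := by
    rcases hcase with ⟨hc, α, hα⟩ | ⟨hc, α, hα⟩
    · obtain ⟨σ, hσ1, hσ2⟩ := hSIG _ α hα
      refine ⟨σ, hσ1, Or.inl ⟨hc, ?_⟩⟩
      intro h0
      apply hσ2
      rw [← h0]
      unfold pr
      exact Finset.sum_congr rfl fun β _ => by ring
    · obtain ⟨σ, hσ1, hσ2⟩ := hSIG _ α hα
      refine ⟨σ, hσ1, Or.inr ⟨hc, ?_⟩⟩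
      intro h0
      apply hσ2
      rw [← h0]
      unfold pr
      exact Finset.sum_congr rfl fun β _ => by ring
  obtain ⟨σ, hσ1, hσ2⟩ := hσ
  -- the numbers `a`, `b`
  let A : Py m × ℂ → (Bx m → ℂ) → ℂ → ℂ := fun Q z c =>
    pr (fun β => Mx σ β * ev Q.2 F β) z + c * pr (fun β => Mx σ β * dv Q.2 F β) (ten Q.1)
  let B : Py m × ℂ → ℂ → ℂ := fun Q c => -(c * pr (fun β => Mx σ β * ev Q.2 F β) (ten Q.1))
  have hab : A P z₀ c₀ ≠ 0 ∨ B P c₀ ≠ 0 := by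
    rcases hσ2 with ⟨hc, h⟩ | ⟨hc, h⟩
    · exact Or.inr (neg_ne_zero.2 (mul_ne_zero hc h))
    · left
      show pr _ z₀ + c₀ * _ ≠ 0
      rw [hc, zero_mul, add_zero]
      exact h
  have hfin1 := hPFR P.2 (A P z₀ c₀) (B P c₀) (fun j : Fin l.length => (l.get j).2)
    (fun j => A (l.get j) (z j) (c j)) (fun j => B (l.get j) (c j))
    (fun j => hne _ (l.get_mem j)) hab
  have hfin2 : {t : ℂ | ∃ Q ∈ P :: l, Q.2 = t}.Finite := by
    refine Set.Finite.subset (((P :: l).map Prod.snd).toFinset.finite_toSet) ?_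
    rintro t ⟨Q, hQ, rfl⟩
    rw [Finset.mem_coe, List.mem_toFinset]
    exact List.mem_map_of_mem hQ
  obtain ⟨t₀, ht₀⟩ := (hfin1.union hfin2).exists_notMem
  rw [Set.mem_union, not_or] at ht₀
  obtain ⟨ht1, ht2⟩ := ht₀
  have ht3 : ∀ Q ∈ P :: l, Q.2 ≠ t₀ := fun Q hQ h => ht2 ⟨Q, hQ, h⟩
  -- the functional
  let Q' : Option (Fin l.length) → Py m × ℂ := fun o => o.elim P (fun j => l.get j)
  let z' : Option (Fin l.length) → Bx m → ℂ := fun o => o.elim z₀ z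
  let c' : Option (Fin l.length) → ℂ := fun o => o.elim c₀ c
  have hQ'mem : ∀ o, Q' o ∈ P :: l := by
    intro o
    cases o with
    | none => exact List.mem_cons_self
    | some j => exact List.mem_cons_of_mem _ (l.get_mem j)
  have hmemQ' : ∀ Q ∈ P :: l, ∃ o, Q' o = Q := by
    intro Q hQ
    rcases List.mem_cons.1 hQ with h | h
    · exact ⟨none, h.symm⟩
    · obtain ⟨j, hj⟩ := List.mem_iff_get.1 h
      exact ⟨some j, hj⟩
  obtain ⟨Λ, hΛ1, hΛ2, hΛ3⟩ := hFVR Q' z' c' t₀ (fun o => ht3 _ (hQ'mem o))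
    (fun o => by
      cases o with
      | none => exact hz₀
      | some j => exact hz j)
  obtain ⟨ψ, hψ, hψ0, hψ1⟩ := hPHE t₀ σ
  have hu : ∀ Q ∈ P :: l, ((X - C t₀) ^ DD m : ℂ[X]).eval Q.2 ≠ 0 := by
    intro Q hQ
    rw [eval_pow, eval_sub, eval_X, eval_C]
    exact pow_ne_zero _ (sub_ne_zero.2 (ht3 Q hQ))
  have hFW : F ∈ WW m e := NN_le e _ hF
  have hFS : ∀ Q ∈ P :: l, F ∈ Sg Q := (mem_NN.1 hF).2
  set S : Submodule ℂ (Bx m → ℂ[X]) := ⨅ Q ∈ P :: l, Sg Q with hS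
  have hSmem : ∀ H, H ∈ S ↔ ∀ Q ∈ P :: l, H ∈ Sg Q := fun H => by
    rw [hS]
    simp only [Submodule.mem_iInf]
  -- first conditions
  have c1 : KZ_mul e (ψ 0) ⟨F, hFW⟩ ∈ S := by
    rw [hSmem]
    intro Q hQ
    have h := (hSCL ((X - C t₀) ^ DD m) Q F (hu Q hQ)).2 (hFS Q hQ)
    have h2 : KZ_mul e (ψ 0) ⟨F, hFW⟩ = fun β => (X - C t₀) ^ DD m * F β := by
      funext β
      rw [KZ_mul_apply, hψ0]
    rw [h2]
    exact h
  have c2 : ∀ y ∈ S, Λ y = 0 := fun y hy => hΛ1 y fun o => (hSmem y).1 hy _ (hQ'mem o)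
  have c3 : ∀ x, Λ (KZ_mul e (ψ 0) x) = 0 := by
    intro x
    have h2 : KZ_mul e (ψ 0) x = fun β => (X - C t₀) ^ DD m * (x : Bx m → ℂ[X]) β := by
      funext β
      rw [KZ_mul_apply, hψ0]
    rw [h2, hΛ2, Fintype.sum_option, add_comm]
    exact hrel x x.2
  have c4 : Λ (KZ_mul e (ψ 1) ⟨F, hFW⟩) ≠ 0 := by
    have h2 : KZ_mul e (ψ 1) ⟨F, hFW⟩ =
        fun β => - (C (Mx σ β) * (X - C t₀) ^ (DD m - 1)) * F β := by
      funext β
      rw [KZ_mul_apply, hψ1]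
    rw [h2, hΛ3, Fintype.sum_option, neg_ne_zero, add_comm]
    intro h
    exact ht1 h
  have c5 : finrank ℂ (S.comap (KZ_mul e (ψ 0))) = finrank ℂ (NN e (P :: l)) := by
    rw [hS, KZ_finrank_NF, KZ_finrank_NN hSCL e _ (ψ 0) hψ0 (P :: l) hu]
  have hpos : 1 ≤ finrank ℂ (NN e (P :: l)) := by
    have hF0 : F ≠ 0 := by
      rintro rfl
      apply c4
      have : KZ_mul e (ψ 1) ⟨0, hFW⟩ = 0 := by
        funext β
        rw [KZ_mul_apply]
        show ψ 1 β * 0 = 0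
        rw [mul_zero]
      rw [this, map_zero]
    have : Nontrivial (NN e (P :: l)) :=
      ⟨⟨⟨F, hF⟩, 0, fun h => hF0 (congrArg Subtype.val h)⟩⟩
    exact finrank_pos
  have hDD : 1 ≤ DD m := by unfold DD; omega
  have hfin := hLQB S (DD m) (fun k => KZ_mul e (ψ k)) (finrank ℂ (NN e (P :: l)) - 1)
    ⟨F, hFW⟩ Λ hDD c1 c2 c3 c4 (by rw [c5]; omega)
  refine ⟨t₀, σ, hσ1, ht3, hfin.subset ?_⟩
  intro ε hε
  show ¬ _
  intro h
  apply hε
  have h3 : (∑ i ∈ Finset.range (DD m + 1), ε ^ i • KZ_mul e (ψ i)) =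
      KZ_mul e (phi (fun α => t₀ + ε * σ α)) := by
    apply LinearMap.ext
    intro G
    funext β
    rw [LinearMap.sum_apply, Finset.sum_apply, KZ_mul_apply, hψ, Finset.sum_mul]
    refine Finset.sum_congr rfl fun i _ => ?_
    rw [LinearMap.smul_apply, Pi.smul_apply, KZ_mul_apply, smul_eq_C_mul, mul_assoc]
  have h4 : finrank ℂ (S.comap (∑ i ∈ Finset.range (DD m + 1), ε ^ i • KZ_mul e (ψ i))) ≤
      finrank ℂ (NN e (P :: l)) - 1 := h
  rw [h3, hS, KZ_finrank_NF] at h4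
  omega

end Pool.Agent.SVA
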