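import Pool.Agent.helper96.SV.SpecA

/-!
# Project sva (MP_b5a345_ag), module PHD: the degree of the block polynomials
-/

set_option autoImplicit false

namespace Pool.Agent.SVA

open Polynomial Module

theorem PHD_prod {K : Type} [Fintype K] [DecidableEq K] {m : K → ℕ} (q : Bx m → ℂ) (β : Bx m)
    (i : K) : (∏ j ∈ Finset.univ.erase (β i), (X - C (q (Function.update β i j)))).Monic ∧
      (∏ j ∈ Finset.univ.erase (β i), (X - C (q (Function.update β i j)))).natDegree = m i := by
  have h1 : ∀ j ∈ Finset.univ.erase (β i), (X - C (q (Function.update β i j))).Monic :=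
    fun j _ => monic_X_sub_C _
  refine ⟨monic_prod_of_monic _ _ h1, ?_⟩
  rw [natDegree_prod_of_monic _ _ h1, Finset.sum_congr rfl fun j _ => natDegree_X_sub_C _,
    Finset.sum_const, Finset.card_erase_of_mem (Finset.mem_univ _), Finset.card_univ,
    Fintype.card_fin]
  simp

theorem PHD : PHD_stmt := by
  intro K _ _ m q β
  have h1 : ((X - C (q β)) ^ 2 : ℂ[X]).Monic := (monic_X_sub_C _).pow 2
  have h2 : (∏ i : K, ∏ j ∈ Finset.univ.erase (β i),
      (X - C (q (Function.update β i j)))).Monic :=
    monic_prod_of_monic _ _ fun i _ => (PHD_prod q β i).1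
  refine ⟨h1.mul h2, ?_⟩
  unfold phi DD
  rw [h1.natDegree_mul h2, (monic_X_sub_C _).natDegree_pow, natDegree_X_sub_C,
    natDegree_prod_of_monic _ _ fun i _ => (PHD_prod q β i).1,
    Finset.sum_congr rfl fun i _ => (PHD_prod q β i).2]

end Pool.Agent.SVA
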